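import Pool.Agent.K1H19.Kom.Stm

/-! # KR-ACC1: cost of one row (helper24, for project KR of helper19) -/

set_option autoImplicit false

namespace Pool.Agent.K1H24.Kom

open Finset K19Kom

theorem hp_pos (p : ℕ) : 0 < hp p := by unfold hp; positivity

theorem bd_pos (p : ℕ) : 0 < bd p := by
  unfold bd
  have := Real.sqrt_pos.2 (hp_pos p)
  positivity

theorem sqrt_two_bounds : (7 : ℝ) / 5 ≤ Real.sqrt 2 ∧ Real.sqrt 2 ≤ 71 / 50 := by
  constructor
  · apply Real.le_sqrt_of_sq_le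
    norm_num
  · rw [Real.sqrt_le_left (by norm_num)]
    norm_num

theorem hp_succ (p : ℕ) : hp (p + 1) = 100 * ((p : ℝ) + 2) * (Real.sqrt 2 * Real.sqrt (2 ^ p)) := by
  unfold hp
  rw [pow_succ, mul_comm ((2 : ℝ) ^ p) 2, Real.sqrt_mul (by norm_num)]
  push_cast
  ring

theorem bd_le_succ (p : ℕ) : bd p ≤ 17 / 20 * bd (p + 1) := by
  unfold bd
  have h1 : Real.sqrt (hp p) ≤ 17 / 20 * Real.sqrt (hp (p + 1)) := by
    rw [Real.sqrt_le_left (by positivity), mul_pow, Real.sq_sqrt (hp_pos _).le, hp_succ]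
    unfold hp
    have h2 : 0 < Real.sqrt ((2 : ℝ) ^ p) := Real.sqrt_pos.2 (by positivity)
    have h3 := sqrt_two_bounds.1
    have h4 : (7 : ℝ) / 5 * (((p : ℝ) + 2) * Real.sqrt (2 ^ p)) ≤
        Real.sqrt 2 * (((p : ℝ) + 2) * Real.sqrt (2 ^ p)) := mul_le_mul_of_nonneg_right h3 (by positivity)
    have h5 : 0 ≤ (p : ℝ) * Real.sqrt (2 ^ p) := by positivity
    nlinarith
  linarith

theorem bd_succ_le (p : ℕ) : bd (p + 1) ≤ 17 / 10 * bd p := by
  unfold bd
  have h1 : Real.sqrt (hp (p + 1)) ≤ 17 / 10 * Real.sqrt (hp p) := by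
    rw [Real.sqrt_le_left (by positivity), mul_pow, Real.sq_sqrt (hp_pos _).le, hp_succ]
    unfold hp
    have h2 : 0 < Real.sqrt ((2 : ℝ) ^ p) := Real.sqrt_pos.2 (by positivity)
    have h3 := sqrt_two_bounds.2
    have h4 : Real.sqrt 2 * (((p : ℝ) + 2) * Real.sqrt (2 ^ p)) ≤
        71 / 50 * (((p : ℝ) + 2) * Real.sqrt (2 ^ p)) := mul_le_mul_of_nonneg_right h3 (by positivity)
    have h5 : 0 ≤ (p : ℝ) * Real.sqrt (2 ^ p) := by positivity
    nlinarith
  linarith

theorem bd_zero_le (P : ℕ) : bd 0 ≤ bd P := by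
  induction P with
  | zero => exact le_rfl
  | succ P ih =>
    have h1 := bd_le_succ P
    have h2 := bd_pos (P + 1)
    linarith

theorem bd_zero : bd 0 = 2600 := by
  unfold bd hp
  have h1 : (100 : ℝ) * (((0 : ℕ) : ℝ) + 1) * Real.sqrt (2 ^ 0) = 10 ^ 2 := by
    rw [pow_zero, Real.sqrt_one]
    norm_num
  rw [h1, Real.sqrt_sq (by norm_num)]
  norm_num

theorem sum_bd (P : ℕ) : ∑ p ∈ range (P + 1), bd p ≤ 20 / 3 * bd P := by
  induction P with
  | zero =>
    rw [Finset.sum_range_one]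
    have := bd_pos 0
    linarith
  | succ P ih =>
    rw [Finset.sum_range_succ]
    have h1 := bd_le_succ P
    linarith

theorem sum_bd_div (n : ℕ) : ∑ p ∈ range n, bd p / 2 ^ p ≤ 20 / 3 * bd 0 := by
  have h0 : ∀ p, bd p / 2 ^ p ≤ bd 0 * (17 / 20) ^ p := by
    intro p
    induction p with
    | zero => simp
    | succ p ih =>
      have h1 := bd_succ_le p
      have h2 : bd (p + 1) / 2 ^ (p + 1) ≤ (17 / 20) * (bd p / 2 ^ p) := by
        rw [pow_succ, div_le_iff₀ (by positivity)]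
        have h3 : 17 / 20 * (bd p / 2 ^ p) * (2 ^ p * 2) = 17 / 10 * bd p := by
          field_simp
          ring
        rw [h3]
        exact h1
      have h5 : bd 0 * (17 / 20 : ℝ) ^ (p + 1) = 17 / 20 * (bd 0 * (17 / 20) ^ p) := by
        rw [pow_succ]
        ring
      rw [h5]
      linarith
  have h1 : ∑ p ∈ range n, bd p / 2 ^ p ≤ ∑ p ∈ range n, bd 0 * (17 / 20 : ℝ) ^ p :=
    Finset.sum_le_sum fun p _ => h0 p
  refine h1.trans ?_
  rw [← Finset.mul_sum, geom_sum_eq (by norm_num)]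
  have h2 : ((17 / 20 : ℝ) ^ n - 1) / (17 / 20 - 1) ≤ 20 / 3 := by
    have h3 : (0 : ℝ) ≤ (17 / 20) ^ n := by positivity
    rw [div_le_iff_of_neg (by norm_num)]
    linarith
  have h4 := bd_pos 0
  nlinarith

/-- at most four times of a given level -/
theorem card_le_four (h : S_WHIT) (l p : ℕ) :
    ((range l).filter fun T => 2 ^ lvl l T ∣ T + 1 ∧ lvl l T = p).card ≤ 4 := by
  obtain ⟨h1, h2, -⟩ := h
  have hp0 : 0 < 2 ^ p := by positivity
  have hmaps : ∀ T ∈ (range l).filter (fun T => 2 ^ lvl l T ∣ T + 1 ∧ lvl l T = p),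
      (T + 1) / 2 ^ p ∈ Icc ((l + 1) / 2 ^ p - 3) ((l + 1) / 2 ^ p) := by
    intro T hT
    rw [Finset.mem_filter, Finset.mem_range] at hT
    obtain ⟨hTl, hdvd, hlv⟩ := hT
    have a1 := h1 l T hTl
    have a2 := h2 l T hTl
    rw [hlv] at a1 a2 hdvd
    obtain ⟨k, hk⟩ := hdvd
    have e1 : (T + 1) / 2 ^ p = k := by rw [hk, Nat.mul_div_cancel_left _ hp0]
    rw [e1, Finset.mem_Icc]
    have e2 := Nat.div_mul_le_self (l + 1) (2 ^ p)
    constructor
    · have e3 : (l + 1) / 2 ^ p * 2 ^ p < (k + 4) * 2 ^ p := by nlinarith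
      have e4 := Nat.lt_of_mul_lt_mul_right e3
      omega
    · rw [Nat.le_div_iff_mul_le hp0]
      nlinarith
  have hinj : Set.InjOn (fun T => (T + 1) / 2 ^ p)
      ((range l).filter (fun T => 2 ^ lvl l T ∣ T + 1 ∧ lvl l T = p) : Finset ℕ) := by
    intro T hT T' hT' he
    rw [Finset.mem_coe, Finset.mem_filter] at hT hT'
    obtain ⟨-, hd, hl⟩ := hT
    obtain ⟨-, hd', hl'⟩ := hT'
    rw [hl] at hd
    rw [hl'] at hd'
    have e1 := Nat.div_mul_cancel hd
    have e2 := Nat.div_mul_cancel hd'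
    simp only at he
    rw [he] at e1
    omega
  have h3 := Finset.card_le_card_of_injOn _ hmaps hinj
  refine h3.trans ?_
  rw [Nat.card_Icc]
  omega

theorem t_ACC1 : S_ACC1 := by
  intro hW
  refine ⟨60, by norm_num, ?_⟩
  intro d Rel i P hP
  classical
  obtain ⟨l, hl⟩ : ∃ l : ℕ, l = scl i := ⟨_, rfl⟩
  -- bound of the terms
  have h1 : paid Rel i 0 ≤ ∑ T ∈ (range l).filter (fun T => 2 ^ lvl l T ∣ T + 1),
      ((if lvl l T ≤ P then bd (lvl l T) else 0) + bd (lvl l T) / 2 ^ lvl l T) := by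
    unfold paid
    rw [← hl, ← Finset.range_eq_Ico]
    apply Finset.sum_le_sum
    intro T hT
    rw [Finset.mem_filter, Finset.mem_range] at hT
    have h2 := hP T (by rw [← hl]; exact hT.1)
    rw [← hl] at h2
    have h3 : 0 ≤ bd (lvl l T) / 2 ^ lvl l T := by
      have := bd_pos (lvl l T)
      positivity
    have h4 := (bd_pos (lvl l T)).le
    by_cases h5 : i ∈ Rel T (lvl l T)
    · rw [if_pos h5, if_pos (h2 h5)]
      linarith
    · rw [if_neg h5]
      split_ifs <;> linarith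
  -- grouping by the level
  have h2 : ∑ T ∈ (range l).filter (fun T => 2 ^ lvl l T ∣ T + 1),
      ((if lvl l T ≤ P then bd (lvl l T) else 0) + bd (lvl l T) / 2 ^ lvl l T) =
      ∑ p ∈ range (l + 1), ∑ T ∈ ((range l).filter (fun T => 2 ^ lvl l T ∣ T + 1)).filter
        (fun T => lvl l T = p), ((if lvl l T ≤ P then bd (lvl l T) else 0) +
          bd (lvl l T) / 2 ^ lvl l T) := by
    rw [Finset.sum_fiberwise_of_maps_to]
    intro T _
    rw [Finset.mem_range]
    have : lvl l T ≤ l := Nat.findGreatest_le l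
    omega
  have h3 : ∀ p ∈ range (l + 1), ∑ T ∈ ((range l).filter (fun T => 2 ^ lvl l T ∣ T + 1)).filter
        (fun T => lvl l T = p), ((if lvl l T ≤ P then bd (lvl l T) else 0) +
          bd (lvl l T) / 2 ^ lvl l T) ≤ 4 * ((if p ≤ P then bd p else 0) + bd p / 2 ^ p) := by
    intro p _
    have e1 : ∀ T ∈ ((range l).filter (fun T => 2 ^ lvl l T ∣ T + 1)).filter
        (fun T => lvl l T = p), ((if lvl l T ≤ P then bd (lvl l T) else 0) +
          bd (lvl l T) / 2 ^ lvl l T) = ((if p ≤ P then bd p else 0) + bd p / 2 ^ p) := by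
      intro T hT
      rw [Finset.mem_filter] at hT
      rw [hT.2]
    rw [Finset.sum_congr rfl e1, Finset.sum_const, nsmul_eq_mul, Finset.filter_filter]
    have e2 : (((range l).filter fun T => 2 ^ lvl l T ∣ T + 1 ∧ lvl l T = p).card : ℝ) ≤ 4 := by
      exact_mod_cast card_le_four hW l p
    have e3 : 0 ≤ (if p ≤ P then bd p else 0) + bd p / 2 ^ p := by
      have := bd_pos p
      split_ifs <;> positivity
    exact mul_le_mul_of_nonneg_right e2 e3
  have h4 : paid Rel i 0 ≤ 4 * (∑ p ∈ range (l + 1), (if p ≤ P then bd p else 0) +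
      ∑ p ∈ range (l + 1), bd p / 2 ^ p) := by
    refine h1.trans ?_
    rw [h2, ← Finset.sum_add_distrib, Finset.mul_sum]
    exact Finset.sum_le_sum h3
  have h5 : ∑ p ∈ range (l + 1), (if p ≤ P then bd p else 0) ≤ ∑ p ∈ range (P + 1), bd p := by
    rw [← Finset.sum_filter]
    apply Finset.sum_le_sum_of_subset_of_nonneg
    · intro p hp
      rw [Finset.mem_filter] at hp
      rw [Finset.mem_range]
      omega
    · intro p _ _
      exact (bd_pos p).le
  have h6 := sum_bd P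
  have h7 := sum_bd_div (l + 1)
  have h8 := bd_zero_le P
  have h9 := bd_zero
  linarith

end Pool.Agent.K1H24.Kom
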