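import Mathlib

set_option autoImplicit false

/-!
The metric of the pocket space, on the whole plane `ℝ × ℝ` (coordinates `(s, t)`).
-/

namespace Pool.Agent.K1H24.Pk

open Set

noncomputable section

/-- the weight `W(s) = exp (max s 0)` -/
def W (s : ℝ) : ℝ := Real.exp (max s 0)

lemma one_le_W (s : ℝ) : 1 ≤ W s := Real.one_le_exp (le_max_right _ _)

lemma W_pos (s : ℝ) : 0 < W s := Real.exp_pos _

lemma W_mono {s s' : ℝ} (h : s ≤ s') : W s ≤ W s' := Real.exp_le_exp.2 (max_le_max h le_rfl)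

lemma W_continuous : Continuous W := by unfold W; fun_prop

/-- the untruncated distance -/
def d0 (p q : ℝ × ℝ) : ℝ :=
  |W p.1 - W q.1| + |p.2 * W p.1 - q.2 * W q.1| + min |p.1 - q.1| 1 + |p.2 - q.2|

lemma d0_self (p : ℝ × ℝ) : d0 p p = 0 := by simp [d0]

lemma d0_comm (p q : ℝ × ℝ) : d0 p q = d0 q p := by
  unfold d0
  rw [abs_sub_comm (W p.1), abs_sub_comm (p.2 * W p.1), abs_sub_comm p.1, abs_sub_comm p.2]

lemma min_one_triangle (a b c : ℝ) : min |a - c| 1 ≤ min |a - b| 1 + min |b - c| 1 := by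
  have h1 : |a - c| ≤ |a - b| + |b - c| := abs_sub_le a b c
  have h2 := abs_nonneg (a - b)
  have h3 := abs_nonneg (b - c)
  rcases le_total |a - b| 1 with h4 | h4 <;> rcases le_total |b - c| 1 with h5 | h5
  · rw [min_eq_left h4, min_eq_left h5]; exact (min_le_left _ _).trans h1
  · rw [min_eq_left h4, min_eq_right h5]; exact (min_le_right _ _).trans (by linarith)
  · rw [min_eq_right h4, min_eq_left h5]; exact (min_le_right _ _).trans (by linarith)
  · rw [min_eq_right h4, min_eq_right h5]; exact (min_le_right _ _).trans (by linarith)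

lemma d0_triangle (p q r : ℝ × ℝ) : d0 p r ≤ d0 p q + d0 q r := by
  unfold d0
  have h1 : |W p.1 - W r.1| ≤ |W p.1 - W q.1| + |W q.1 - W r.1| := abs_sub_le _ _ _
  have h2 : |p.2 * W p.1 - r.2 * W r.1| ≤ |p.2 * W p.1 - q.2 * W q.1| + |q.2 * W q.1 - r.2 * W r.1| :=
    abs_sub_le _ _ _
  have h3 := min_one_triangle p.1 q.1 r.1
  have h4 : |p.2 - r.2| ≤ |p.2 - q.2| + |q.2 - r.2| := abs_sub_le _ _ _
  linarith

lemma d0_nonneg (p q : ℝ × ℝ) : 0 ≤ d0 p q := by
  unfold d0
  have : 0 ≤ min |p.1 - q.1| 1 := le_min (abs_nonneg _) zero_le_one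
  positivity

lemma min_le_d0 (p q : ℝ × ℝ) : min |p.1 - q.1| 1 ≤ d0 p q := by
  unfold d0
  have h1 := abs_nonneg (W p.1 - W q.1)
  have h2 := abs_nonneg (p.2 * W p.1 - q.2 * W q.1)
  have h3 := abs_nonneg (p.2 - q.2)
  linarith

lemma abs_le_d0 (p q : ℝ × ℝ) : |p.2 - q.2| ≤ d0 p q := by
  unfold d0
  have h1 := abs_nonneg (W p.1 - W q.1)
  have h2 := abs_nonneg (p.2 * W p.1 - q.2 * W q.1)
  have h3 : 0 ≤ min |p.1 - q.1| 1 := le_min (abs_nonneg _) zero_le_one
  linarith

lemma W_sub_le_d0 (p q : ℝ × ℝ) : |W p.1 - W q.1| ≤ d0 p q := by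
  unfold d0
  have h2 := abs_nonneg (p.2 * W p.1 - q.2 * W q.1)
  have h3 : 0 ≤ min |p.1 - q.1| 1 := le_min (abs_nonneg _) zero_le_one
  have h1 := abs_nonneg (p.2 - q.2)
  linarith

/-- the sup-distance in the coordinates -/
def D (p q : ℝ × ℝ) : ℝ := max |p.1 - q.1| |p.2 - q.2|

lemma D_nonneg (p q : ℝ × ℝ) : 0 ≤ D p q := le_max_of_le_left (abs_nonneg _)

lemma D_comm (p q : ℝ × ℝ) : D p q = D q p := by
  unfold D; rw [abs_sub_comm p.1, abs_sub_comm p.2]

/-- `W` is log-Lipschitz -/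
lemma W_le_mul (s s' : ℝ) : W s ≤ Real.exp |s - s'| * W s' := by
  unfold W
  rw [← Real.exp_add]
  apply Real.exp_le_exp.2
  have h1 : s ≤ |s - s'| + s' := by linarith [le_abs_self (s - s')]
  have h2 : s' ≤ max s' 0 := le_max_left _ _
  have h3 : 0 ≤ max s' 0 := le_max_right _ _
  have h4 := abs_nonneg (s - s')
  exact max_le (by linarith) (by linarith)

lemma W_le_three {s s' : ℝ} (h : |s - s'| ≤ 1) : W s ≤ 3 * W s' := by
  refine (W_le_mul s s').trans ?_
  have h1 : Real.exp |s - s'| ≤ 3 := (Real.exp_le_exp.2 h).trans (by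
    have := Real.exp_one_lt_d9; linarith)
  exact mul_le_mul_of_nonneg_right h1 (W_pos _).le

lemma W_le_two {s s' : ℝ} (h : |s - s'| ≤ 1 / 2) : W s ≤ 2 * W s' := by
  refine (W_le_mul s s').trans ?_
  have h1 : Real.exp |s - s'| ≤ 2 := by
    refine (Real.exp_le_exp.2 h).trans ?_
    have h2 : Real.exp (1 / 2) * Real.exp (1 / 2) = Real.exp 1 := by
      rw [← Real.exp_add]; norm_num
    have := Real.exp_one_lt_d9
    have h3 := Real.exp_pos (1 / 2)
    nlinarith
  exact mul_le_mul_of_nonneg_right h1 (W_pos _).le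

/-- `|W s - W s'| ≤ max (W s) (W s') * min |s - s'| 1` -/
lemma abs_W_sub_le (s s' : ℝ) : |W s - W s'| ≤ max (W s) (W s') * min |s - s'| 1 := by
  wlog h : s' ≤ s generalizing s s'
  · have := this s' s (le_of_not_ge h)
    rwa [abs_sub_comm, max_comm, abs_sub_comm s] 
  have h1 : W s' ≤ W s := W_mono h
  rw [abs_of_nonneg (sub_nonneg.2 h1), max_eq_left h1, abs_of_nonneg (sub_nonneg.2 h)]
  rcases le_total (s - s') 1 with h2 | h2
  · rw [min_eq_left h2]
    have h3 := W_le_mul s s'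
    rw [abs_of_nonneg (sub_nonneg.2 h)] at h3
    -- W s' ≥ exp(-(s-s')) W s ≥ (1 - (s - s')) W s
    have h4 : Real.exp (-(s - s')) * W s ≤ W s' := by
      have h5 : Real.exp (-(s - s')) * W s ≤ Real.exp (-(s - s')) * (Real.exp (s - s') * W s') :=
        mul_le_mul_of_nonneg_left h3 (Real.exp_pos _).le
      rw [← mul_assoc, ← Real.exp_add, neg_add_cancel, Real.exp_zero, one_mul] at h5
      exact h5
    have h6 : 1 - (s - s') ≤ Real.exp (-(s - s')) := by
      have := Real.add_one_le_exp (-(s - s')); linarith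
    have h7 := mul_le_mul_of_nonneg_right h6 (W_pos s).le
    nlinarith
  · rw [min_eq_right h2, mul_one]
    have := W_pos s'
    linarith

/-- upper bound for the untruncated distance -/
lemma d0_le {p q : ℝ × ℝ} (hp : |p.2| ≤ 1) (hq : |q.2| ≤ 1) :
    d0 p q ≤ 7 * (max (W p.1) (W q.1) * min (D p q) 1) := by
  set M := max (W p.1) (W q.1) with hM
  set m := min (D p q) 1 with hm
  have hM1 : 1 ≤ M := (one_le_W p.1).trans (le_max_left _ _)
  have hm0 : 0 ≤ m := le_min (D_nonneg _ _) zero_le_one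
  have hmm : min |p.1 - q.1| 1 ≤ m := min_le_min (le_max_left _ _) le_rfl
  have hτ : |p.2 - q.2| ≤ 2 * m := by
    rcases le_total (D p q) 1 with h | h
    · rw [hm, min_eq_left h]
      have : |p.2 - q.2| ≤ D p q := le_max_right _ _
      linarith [D_nonneg p q]
    · rw [hm, min_eq_right h]
      have := abs_sub p.2 q.2
      linarith
  have h1 : |W p.1 - W q.1| ≤ M * m := (abs_W_sub_le _ _).trans
    (mul_le_mul_of_nonneg_left hmm (by linarith))
  have h2 : |p.2 * W p.1 - q.2 * W q.1| ≤ 3 * (M * m) := by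
    have e : p.2 * W p.1 - q.2 * W q.1 = (p.2 - q.2) * W p.1 + q.2 * (W p.1 - W q.1) := by ring
    rw [e]
    refine (abs_add_le _ _).trans ?_
    rw [abs_mul, abs_mul, abs_of_pos (W_pos p.1)]
    have h3 : |p.2 - q.2| * W p.1 ≤ 2 * m * M :=
      mul_le_mul hτ (le_max_left _ _) (W_pos _).le (by positivity)
    have h4 : |q.2| * |W p.1 - W q.1| ≤ 1 * (M * m) :=
      mul_le_mul hq h1 (abs_nonneg _) zero_le_one
    linarith
  have h3 : m ≤ M * m := by nlinarith
  unfold d0
  linarith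

/-- lower bound for the untruncated distance -/
lemma le_d0 {p q : ℝ × ℝ} (hp : |p.2| ≤ 1) (hq : |q.2| ≤ 1) :
    max (W p.1) (W q.1) * min (D p q) 1 ≤ 6 * d0 p q := by
  wlog h : q.1 ≤ p.1 generalizing p q
  · have := this hq hp (le_of_not_ge h)
    rwa [max_comm, D_comm, d0_comm] 
  have hW : W q.1 ≤ W p.1 := W_mono h
  rw [max_eq_left hW]
  have hu : |p.1 - q.1| = p.1 - q.1 := abs_of_nonneg (sub_nonneg.2 h)
  have hWs : |W p.1 - W q.1| = W p.1 - W q.1 := abs_of_nonneg (sub_nonneg.2 hW)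
  -- first: 3 (|W - W'| + min) ≥ W min
  have h1 : W p.1 * min |p.1 - q.1| 1 ≤ 3 * (|W p.1 - W q.1| + min |p.1 - q.1| 1) := by
    rw [hWs, hu]
    have hmin0 : 0 ≤ min (p.1 - q.1) 1 := le_min (sub_nonneg.2 h) zero_le_one
    have hmin1 : min (p.1 - q.1) 1 ≤ 1 := min_le_right _ _
    rcases le_total p.1 1 with hp1 | hp1
    · -- W p ≤ e ≤ 3
      have h2 : W p.1 ≤ 3 := by
        unfold W
        have h3 : max p.1 0 ≤ 1 := max_le hp1 zero_le_one
        refine (Real.exp_le_exp.2 h3).trans ?_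
        have := Real.exp_one_lt_d9; linarith
      have h3 := mul_le_mul_of_nonneg_right h2 hmin0
      have h4 := sub_nonneg.2 hW
      linarith
    · -- W p = exp p.1
      have hWp : W p.1 = Real.exp p.1 := by
        unfold W; rw [max_eq_left (by linarith)]
      -- W p - W q ≥ W p (1 - exp (-u')) with u' = p.1 - max q.1 0 
      rcases le_total q.1 0 with hq0 | hq0
      · have hWq : W q.1 = 1 := by
          unfold W; rw [max_eq_right hq0, Real.exp_zero]
        rw [hWq]
        have h5 : Real.exp 1 ≤ W p.1 := by rw [hWp]; exact Real.exp_le_exp.2 hp1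
        have h6 := Real.exp_one_gt_d9
        nlinarith [mul_le_mul_of_nonneg_left hmin1 (W_pos p.1).le]
      · have hWq : W q.1 = Real.exp q.1 := by
          unfold W; rw [max_eq_left hq0]
        -- W q = exp(-(u)) W p
        have h5 : W q.1 = Real.exp (-(p.1 - q.1)) * W p.1 := by
          rw [hWp, hWq, ← Real.exp_add]; congr 1; ring
        have h7 : Real.exp (-(p.1 - q.1)) ≤ 1 - min (p.1 - q.1) 1 / 2 := by
          -- exp(-u) ≤ 1/(1+u) ≤ 1 - min(u,1)/2
          set u := p.1 - q.1 with hu'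
          have hu0 : 0 ≤ u := sub_nonneg.2 h
          have h8 : Real.exp (-u) ≤ 1 / (1 + u) := by
            rw [Real.exp_neg, one_div]
            apply inv_anti₀ (by linarith)
            have := Real.add_one_le_exp u; linarith
          refine h8.trans ?_
          rw [div_le_iff₀ (by linarith)]
          rcases le_total u 1 with h9 | h9
          · rw [min_eq_left h9]; nlinarith
          · rw [min_eq_right h9]; nlinarith
        have h8 := mul_le_mul_of_nonneg_right h7 (W_pos p.1).le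
        rw [← h5] at h8
        nlinarith [W_pos p.1]
  have h2 : |p.2 - q.2| * W p.1 ≤ |p.2 * W p.1 - q.2 * W q.1| + |W p.1 - W q.1| := by
    have e : (p.2 - q.2) * W p.1 = (p.2 * W p.1 - q.2 * W q.1) + (-q.2) * (W p.1 - W q.1) := by ring
    have h3 : |p.2 - q.2| * W p.1 = |(p.2 - q.2) * W p.1| := by
      rw [abs_mul, abs_of_pos (W_pos p.1)]
    rw [h3, e]
    refine (abs_add_le _ _).trans ?_
    rw [abs_mul (-q.2), abs_neg]
    have := mul_le_mul_of_nonneg_right hq (abs_nonneg (W p.1 - W q.1))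
    linarith
  have h3 : min (D p q) 1 ≤ min |p.1 - q.1| 1 + |p.2 - q.2| := by
    unfold D
    have h4 := abs_nonneg (p.2 - q.2)
    have h5 : 0 ≤ min |p.1 - q.1| 1 := le_min (abs_nonneg _) zero_le_one
    rcases le_total |p.1 - q.1| |p.2 - q.2| with h6 | h6
    · rw [max_eq_right h6]
      exact (min_le_left _ _).trans (by linarith)
    · rw [max_eq_left h6]; linarith
  have h4 := mul_le_mul_of_nonneg_left h3 (W_pos p.1).le
  have h5 : 0 ≤ |W p.1 - W q.1| := abs_nonneg _
  have h6 : 0 ≤ |p.2 * W p.1 - q.2 * W q.1| := abs_nonneg _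
  have h7 : 0 ≤ min |p.1 - q.1| 1 := le_min (abs_nonneg _) zero_le_one
  have h8 : 0 ≤ |p.2 - q.2| := abs_nonneg _
  unfold d0
  nlinarith

/-- the truncated distance -/
def dL (L : ℝ) (p q : ℝ × ℝ) : ℝ := min (d0 p q) L

lemma dL_continuous_left (L : ℝ) (q : ℝ × ℝ) : Continuous fun p => dL L p q := by
  unfold dL d0
  have := W_continuous
  fun_prop

end

end Pool.Agent.K1H24.Pk
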