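import Mathlib
import Pool.Agent.K1H24.PkMetric

set_option autoImplicit false

/-!
Connecting points of the strip `|t| < 1` by compact connected sets avoiding a small square.
-/

namespace Pool.Agent.K1H24.Pk

open Set

/-- `p` and `q` lie in a compact connected subset of `S` -/
def Conn (S : Set (ℝ × ℝ)) (p q : ℝ × ℝ) : Prop :=
  ∃ K : Set (ℝ × ℝ), IsCompact K ∧ IsPreconnected K ∧ p ∈ K ∧ q ∈ K ∧ K ⊆ S

lemma Conn.symm {S : Set (ℝ × ℝ)} {p q : ℝ × ℝ} (h : Conn S p q) : Conn S q p := by
  obtain ⟨K, h1, h2, h3, h4, h5⟩ := h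
  exact ⟨K, h1, h2, h4, h3, h5⟩

lemma Conn.trans {S : Set (ℝ × ℝ)} {p q r : ℝ × ℝ} (h : Conn S p q) (h' : Conn S q r) :
    Conn S p r := by
  obtain ⟨K, h1, h2, h3, h4, h5⟩ := h
  obtain ⟨K', h1', h2', h3', h4', h5'⟩ := h'
  exact ⟨K ∪ K', h1.union h1', h2.union q h4 h3' h2', Or.inl h3, Or.inr h4', union_subset h5 h5'⟩

lemma Conn.mono {S T : Set (ℝ × ℝ)} {p q : ℝ × ℝ} (h : Conn S p q) (hST : S ⊆ T) : Conn T p q := by
  obtain ⟨K, h1, h2, h3, h4, h5⟩ := h
  exact ⟨K, h1, h2, h3, h4, h5.trans hST⟩

/-- horizontal segments -/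
lemma conn_h {S : Set (ℝ × ℝ)} {t s s' : ℝ} (h : ∀ x ∈ uIcc s s', (x, t) ∈ S) :
    Conn S (s, t) (s', t) := by
  refine ⟨(fun x => (x, t)) '' uIcc s s', isCompact_uIcc.image (by fun_prop),
    isPreconnected_uIcc.image _ (by fun_prop), ⟨s, left_mem_uIcc, rfl⟩, ⟨s', right_mem_uIcc, rfl⟩, ?_⟩
  rintro _ ⟨x, hx, rfl⟩
  exact h x hx

/-- vertical segments -/
lemma conn_v {S : Set (ℝ × ℝ)} {t t' s : ℝ} (h : ∀ x ∈ uIcc t t', (s, x) ∈ S) :
    Conn S (s, t) (s, t') := by
  refine ⟨(fun x => (s, x)) '' uIcc t t', isCompact_uIcc.image (by fun_prop),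
    isPreconnected_uIcc.image _ (by fun_prop), ⟨t, left_mem_uIcc, rfl⟩, ⟨t', right_mem_uIcc, rfl⟩, ?_⟩
  rintro _ ⟨x, hx, rfl⟩
  exact h x hx

/-- the good set around `a` -/
def G (a : ℝ × ℝ) (ρ m u : ℝ) : Set (ℝ × ℝ) :=
  {x | |x.2| < 1 ∧ ρ ≤ D x a ∧ D x a ≤ m ∧ x.1 ≤ u}

lemma to_line {a : ℝ × ℝ} (ha0 : 0 ≤ a.2) (ha1 : a.2 < 1) {ρ m u : ℝ} (hρ : 0 < ρ)
    (hρ2 : ρ ≤ 1 / 2) (hm : ρ ≤ m) (hu : a.1 + ρ ≤ u) {p : ℝ × ℝ} (hp : p ∈ G a ρ m u) :
    ∃ s', Conn (G a ρ m u) p (s', a.2 - ρ) ∧ |s' - a.1| ≤ m ∧ s' ≤ u := by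
  obtain ⟨s, t⟩ := p
  obtain ⟨a1, a2⟩ := a
  simp only at ha0 ha1 hu
  obtain ⟨hp1, hp2, hp3, hp4⟩ := hp
  simp only [D] at hp1 hp2 hp3 hp4
  obtain ⟨hp31, hp32⟩ := max_le_iff.1 hp3
  rw [abs_lt] at hp1
  rw [abs_le] at hp31 hp32
  -- vertical move at abscissa `x` with `ρ ≤ |x - a1|`
  have hvert : ∀ x, ρ ≤ |x - a1| → |x - a1| ≤ m → x ≤ u →
      Conn (G (a1, a2) ρ m u) (x, t) (x, a2 - ρ) := by
    intro x hx1 hx2 hx3
    apply conn_v
    intro y hy
    rw [mem_uIcc] at hy
    refine ⟨?_, ?_, ?_, hx3⟩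
    · simp only [abs_lt]
      rcases hy with hy | hy <;> constructor <;> linarith
    · exact le_max_of_le_left hx1
    · simp only [D]
      refine max_le hx2 ?_
      rw [abs_le]
      rcases hy with hy | hy <;> constructor <;> linarith
  by_cases h1 : t ≤ a2 - ρ
  · refine ⟨s, ?_, by rw [abs_le]; exact hp31, hp4⟩
    apply conn_v
    intro y hy
    rw [uIcc_of_le h1, mem_Icc] at hy
    refine ⟨?_, ?_, ?_, hp4⟩
    · simp only [abs_lt]; constructor <;> linarith
    · refine le_max_of_le_right ?_
      simp only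
      rw [abs_of_nonpos (by linarith)]; linarith
    · simp only [D]
      refine max_le (by rw [abs_le]; exact hp31) ?_
      rw [abs_le]; constructor <;> linarith
  · push Not at h1
    by_cases h2 : ρ ≤ |s - a1|
    · exact ⟨s, hvert s h2 (by rw [abs_le]; exact hp31) hp4, by rw [abs_le]; exact hp31, hp4⟩
    · push Not at h2
      have h3 : ρ ≤ |t - a2| := by
        rcases le_max_iff.1 hp2 with h | h
        · linarith
        · exact h
      have h4 : a2 + ρ ≤ t := by
        rcases le_abs.1 h3 with h | h <;> linarith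
      rw [abs_lt] at h2
      have e : |a1 + ρ - a1| = ρ := by rw [add_sub_cancel_left, abs_of_pos hρ]
      refine ⟨a1 + ρ, ?_, by rw [e]; exact hm, hu⟩
      refine Conn.trans ?_ (hvert (a1 + ρ) e.ge (e.le.trans hm) hu)
      apply conn_h
      intro x hx
      rw [uIcc_of_le (by linarith), mem_Icc] at hx
      refine ⟨?_, ?_, ?_, by simp only; linarith⟩
      · simp only [abs_lt]; exact hp1
      · refine le_max_of_le_right ?_
        exact h3
      · simp only [D]
        refine max_le ?_ (by rw [abs_le]; exact hp32)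
        rw [abs_le]; constructor <;> linarith

lemma strip_half {a : ℝ × ℝ} (ha0 : 0 ≤ a.2) (ha1 : a.2 < 1) {ρ m u : ℝ} (hρ : 0 < ρ)
    (hρ2 : ρ ≤ 1 / 2) (hm : ρ ≤ m) (hu : a.1 + ρ ≤ u) {p q : ℝ × ℝ} (hp : p ∈ G a ρ m u)
    (hq : q ∈ G a ρ m u) : Conn (G a ρ m u) p q := by
  obtain ⟨s, h1, h2, h3⟩ := to_line ha0 ha1 hρ hρ2 hm hu hp
  obtain ⟨s', h1', h2', h3'⟩ := to_line ha0 ha1 hρ hρ2 hm hu hq
  refine h1.trans (Conn.trans ?_ h1'.symm)
  apply conn_h
  intro x hx
  rw [mem_uIcc] at hx
  rw [abs_le] at h2 h2'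
  have e : |a.2 - ρ - a.2| = ρ := by
    rw [show a.2 - ρ - a.2 = -ρ by ring, abs_neg, abs_of_pos hρ]
  refine ⟨?_, ?_, ?_, ?_⟩
  · simp only [abs_lt]; constructor <;> linarith
  · refine le_max_of_le_right ?_
    simp only; rw [e]
  · simp only [D]
    refine max_le ?_ (by rw [e]; exact hm)
    rw [abs_le]
    rcases hx with hx | hx <;> constructor <;> linarith
  · simp only
    rcases hx with hx | hx <;> linarith

/-- reflection -/
def refl (x : ℝ × ℝ) : ℝ × ℝ := (x.1, -x.2)

lemma refl_refl (x : ℝ × ℝ) : refl (refl x) = x := by simp [refl]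

lemma D_refl (x y : ℝ × ℝ) : D (refl x) (refl y) = D x y := by
  unfold D refl
  have : |(-x.2) - (-y.2)| = |x.2 - y.2| := by
    rw [show (-x.2) - (-y.2) = -(x.2 - y.2) by ring, abs_neg]
  simp only [this]

lemma refl_mem {a x : ℝ × ℝ} {ρ m u : ℝ} (h : x ∈ G a ρ m u) : refl x ∈ G (refl a) ρ m u := by
  obtain ⟨h1, h2, h3, h4⟩ := h
  refine ⟨?_, ?_, ?_, h4⟩
  · simpa [refl] using h1
  · rwa [D_refl]
  · rwa [D_refl]

lemma continuous_refl : Continuous refl := by unfold refl; fun_prop

/-- Two points of the strip outside the square of radius `ρ ≤ 1/2` around `a` can be joined. -/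
theorem strip_conn {a : ℝ × ℝ} (ha : |a.2| < 1) {ρ m u : ℝ} (hρ : 0 < ρ)
    (hρ2 : ρ ≤ 1 / 2) (hm : ρ ≤ m) (hu : a.1 + ρ ≤ u) {p q : ℝ × ℝ} (hp : p ∈ G a ρ m u)
    (hq : q ∈ G a ρ m u) : Conn (G a ρ m u) p q := by
  rw [abs_lt] at ha
  rcases le_total 0 a.2 with h | h
  · exact strip_half h ha.2 hρ hρ2 hm hu hp hq
  · have h1 : 0 ≤ (refl a).2 := by simp only [refl]; linarith
    have h2 : (refl a).2 < 1 := by simp only [refl]; linarith
    obtain ⟨K, k1, k2, k3, k4, k5⟩ := strip_half h1 h2 hρ hρ2 hm (u := u) hu (refl_mem hp) (refl_mem hq)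
    refine ⟨refl '' K, k1.image continuous_refl, k2.image _ continuous_refl.continuousOn,
      ⟨_, k3, refl_refl p⟩, ⟨_, k4, refl_refl q⟩, ?_⟩
    rintro _ ⟨x, hx, rfl⟩
    have := refl_mem (k5 hx)
    rwa [refl_refl] at this

/-- **ALLC in coordinates.** -/
theorem allc_coord (L : ℝ) {a p q : ℝ × ℝ} (ha : |a.2| < 1) (hp : |p.2| < 1) (hq : |q.2| < 1)
    {r R : ℝ} (hr : 0 < r) (hrR : r < R) (hp1 : r ≤ dL L p a) (hp2 : dL L p a ≤ R)
    (hq1 : r ≤ dL L q a) (hq2 : dL L q a ≤ R) :
    Conn {x | |x.2| < 1 ∧ r / 252 ≤ dL L x a ∧ dL L x a ≤ 252 * R} p q := by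
  -- it suffices to work with `d0`
  have hrL : r ≤ L := hp1.trans (min_le_right _ _)
  have hp1' : r ≤ d0 p a := hp1.trans (min_le_left _ _)
  have hq1' : r ≤ d0 q a := hq1.trans (min_le_left _ _)
  set R' := max (d0 p a) (d0 q a) with hR'
  have key : Conn {x | |x.2| < 1 ∧ r / 252 ≤ d0 x a ∧ d0 x a ≤ 252 * R'} p q := by
    have hWa := one_le_W a.1
    have hWp := one_le_W p.1
    have hWq := one_le_W q.1
    have up := d0_le hp.le ha.le
    have uq := d0_le hq.le ha.le
    have lp := le_d0 hp.le ha.le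
    have lq := le_d0 hq.le ha.le
    have hpR : d0 p a ≤ R' := le_max_left _ _
    have hqR : d0 q a ≤ R' := le_max_right _ _
    by_cases hcase : r ≤ 21 * W a.1
    · -- small scale
      set ρ := min (1 / 2) (r / (14 * W a.1)) with hρ
      have hρ0 : 0 < ρ := lt_min (by norm_num) (by positivity)
      have hρ2 : ρ ≤ 1 / 2 := min_le_left _ _
      have hD : ∀ x : ℝ × ℝ, |x.2| < 1 → r ≤ d0 x a → ρ ≤ D x a := by
        intro x hx hrx
        by_contra hcon
        push Not at hcon
        have h1 : |x.1 - a.1| ≤ 1 / 2 := (le_max_left _ _).trans (hcon.le.trans hρ2)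
        have h2 := W_le_two h1
        have h3 := d0_le hx.le ha.le
        have h4 : max (W x.1) (W a.1) ≤ 2 * W a.1 := max_le h2 (by linarith)
        have h5 : min (D x a) 1 ≤ D x a := min_le_left _ _
        have h6 : max (W x.1) (W a.1) * min (D x a) 1 ≤ (2 * W a.1) * D x a :=
          mul_le_mul h4 h5 (le_min (D_nonneg _ _) zero_le_one) (by linarith)
        have h7 : D x a < r / (14 * W a.1) := hcon.trans_le (min_le_right _ _)
        rw [lt_div_iff₀ (by linarith)] at h7
        nlinarith
      set m := max (D p a) (D q a) with hm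
      set u := max (max p.1 q.1) (a.1 + ρ) with hu
      have hpG : p ∈ G a ρ m u := ⟨hp, hD p hp hp1', le_max_left _ _,
        (le_max_left _ _).trans (le_max_left _ _)⟩
      have hqG : q ∈ G a ρ m u := ⟨hq, hD q hq hq1', le_max_right _ _,
        (le_max_right _ _).trans (le_max_left _ _)⟩
      refine (strip_conn ha hρ0 hρ2 (hpG.2.1.trans (le_max_left _ _)) (le_max_right _ _)
        hpG hqG).mono ?_
      rintro x ⟨hx1, hx2, hx3, hx4⟩
      refine ⟨hx1, ?_, ?_⟩
      · have h1 := le_d0 hx1.le ha.le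
        have h2 : W a.1 * ρ ≤ max (W x.1) (W a.1) * min (D x a) 1 :=
          mul_le_mul (le_max_right _ _) (le_min hx2 (hρ2.trans (by norm_num))) hρ0.le
            (le_max_of_le_right (by linarith))
        have h3 : r / 42 ≤ W a.1 * ρ := by
          rcases min_choice (1 / 2) (r / (14 * W a.1)) with h | h
          · rw [hρ, h]; linarith
          · rw [hρ, h]
            have : W a.1 * (r / (14 * W a.1)) = r / 14 := by
              field_simp
            rw [this]; linarith
        linarith
      · -- upper bound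
        have h1 := d0_le hx1.le ha.le
        -- M* = max (W a) (W p) (W q)
        set M := max (W a.1) (max (W p.1) (W q.1)) with hM
        have hMa : W a.1 ≤ M := le_max_left _ _
        have hMp : W p.1 ≤ M := (le_max_left _ _).trans (le_max_right _ _)
        have hMq : W q.1 ≤ M := (le_max_right _ _).trans (le_max_right _ _)
        have hWx : W x.1 ≤ 2 * M := by
          refine (W_mono hx4).trans ?_
          rcases le_total (max p.1 q.1) (a.1 + ρ) with h | h
          · rw [max_eq_right h]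
            have h2 : W (a.1 + ρ) ≤ 2 * W a.1 := W_le_two (by
              rw [add_sub_cancel_left, abs_of_pos hρ0]; exact hρ2)
            linarith
          · rw [max_eq_left h]
            rcases le_total p.1 q.1 with h' | h'
            · rw [max_eq_right h']; linarith
            · rw [max_eq_left h']; linarith
        have h2 : max (W x.1) (W a.1) ≤ 2 * M := max_le hWx (by linarith)
        have h3 : min (D x a) 1 ≤ min m 1 := min_le_min hx3 le_rfl
        have h4 : max (W x.1) (W a.1) * min (D x a) 1 ≤ 2 * M * min m 1 :=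
          mul_le_mul h2 h3 (le_min (D_nonneg _ _) zero_le_one) (by linarith)
        -- claim M * min m 1 ≤ 18 R'
        have h5 : M * min m 1 ≤ 18 * R' := by
          have hR0 : 0 ≤ R' := (d0_nonneg p a).trans hpR
          -- comparison of W p with W a when D p a ≤ 1
          have c1 : D p a ≤ 1 → W p.1 ≤ 3 * W a.1 := fun h =>
            W_le_three ((le_max_left _ _).trans h)
          have c2 : D q a ≤ 1 → W q.1 ≤ 3 * W a.1 := fun h =>
            W_le_three ((le_max_left _ _).trans h)
          have e1 : W a.1 * min (D p a) 1 ≤ 6 * R' :=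
            ((mul_le_mul_of_nonneg_right (le_max_right _ _)
              (le_min (D_nonneg _ _) zero_le_one)).trans lp).trans (by linarith)
          have e2 : W a.1 * min (D q a) 1 ≤ 6 * R' :=
            ((mul_le_mul_of_nonneg_right (le_max_right _ _)
              (le_min (D_nonneg _ _) zero_le_one)).trans lq).trans (by linarith)
          have e3 : W p.1 * min (D p a) 1 ≤ 6 * R' :=
            ((mul_le_mul_of_nonneg_right (le_max_left _ _)
              (le_min (D_nonneg _ _) zero_le_one)).trans lp).trans (by linarith)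
          have e4 : W q.1 * min (D q a) 1 ≤ 6 * R' :=
            ((mul_le_mul_of_nonneg_right (le_max_left _ _)
              (le_min (D_nonneg _ _) zero_le_one)).trans lq).trans (by linarith)
          have e5 : W a.1 * min m 1 ≤ 6 * R' := by
            rcases max_choice (D p a) (D q a) with h | h
            · rw [hm, h]; exact e1
            · rw [hm, h]; exact e2
          have hmin1 : min m 1 ≤ 1 := min_le_right _ _
          have hmin0 : 0 ≤ min m 1 := le_min ((D_nonneg _ _).trans (le_max_left _ _)) zero_le_one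
          have e6 : W p.1 * min m 1 ≤ 18 * R' := by
            rcases le_total (D p a) 1 with h | h
            · have := mul_le_mul_of_nonneg_right (c1 h) hmin0
              linarith
            · rw [min_eq_right h, mul_one] at e3
              have := mul_le_mul_of_nonneg_left hmin1 (W_pos p.1).le
              linarith
          have e7 : W q.1 * min m 1 ≤ 18 * R' := by
            rcases le_total (D q a) 1 with h | h
            · have := mul_le_mul_of_nonneg_right (c2 h) hmin0
              linarith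
            · rw [min_eq_right h, mul_one] at e4
              have := mul_le_mul_of_nonneg_left hmin1 (W_pos q.1).le
              linarith
          rcases max_choice (W a.1) (max (W p.1) (W q.1)) with h | h
          · rw [hM, h]; linarith
          · rw [hM, h]
            rcases max_choice (W p.1) (W q.1) with h' | h'
            · rw [h']; exact e6
            · rw [h']; exact e7
        nlinarith
    · -- large scale
      push Not at hcase
      have hbig : ∀ x : ℝ × ℝ, |x.2| < 1 → r ≤ d0 x a → r / 7 ≤ W x.1 := by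
        intro x hx hrx
        have h3 := d0_le hx.le ha.le
        have h5 : min (D x a) 1 ≤ 1 := min_le_right _ _
        have h6 : max (W x.1) (W a.1) * min (D x a) 1 ≤ max (W x.1) (W a.1) :=
          mul_le_of_le_one_right (le_max_of_le_right (by linarith)) h5
        rcases max_choice (W x.1) (W a.1) with h | h
        · rw [h] at h6 h3; linarith
        · rw [h] at h6 h3; linarith
      have hbp := hbig p hp hp1'
      have hbq := hbig q hq hq1'
      have hfar : ∀ x : ℝ × ℝ, 3 * W a.1 < W x.1 → 1 ≤ D x a := by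
        intro x hx
        by_contra hcon
        push Not at hcon
        have := W_le_three (s := x.1) (s' := a.1) ((le_max_left _ _).trans hcon.le)
        linarith
      have hmain : ∀ x : ℝ × ℝ, |x.2| < 1 → r / 7 ≤ W x.1 → W x.1 ≤ max (W p.1) (W q.1) →
          x ∈ {x : ℝ × ℝ | |x.2| < 1 ∧ r / 252 ≤ d0 x a ∧ d0 x a ≤ 252 * R'} := by
        intro x hx h1 h2
        have h3 : 1 ≤ D x a := hfar x (by linarith)
        have h4 := le_d0 hx.le ha.le
        have h5 := d0_le hx.le ha.le
        rw [min_eq_right h3, mul_one] at h4 h5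
        have h6 : W x.1 ≤ max (W x.1) (W a.1) := le_max_left _ _
        refine ⟨hx, by linarith, ?_⟩
        have h7 : max (W x.1) (W a.1) ≤ max (W p.1) (W q.1) := max_le h2
          ((show W a.1 ≤ W p.1 by linarith).trans (le_max_left _ _))
        have hDp : 1 ≤ D p a := hfar p (by linarith)
        have hDq : 1 ≤ D q a := hfar q (by linarith)
        rw [min_eq_right hDp, mul_one] at lp
        rw [min_eq_right hDq, mul_one] at lq
        have h8 : W p.1 ≤ 6 * R' := (le_max_left _ _).trans (lp.trans (by linarith))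
        have h9 : W q.1 ≤ 6 * R' := (le_max_left _ _).trans (lq.trans (by linarith))
        have h10 : max (W p.1) (W q.1) ≤ 6 * R' := max_le h8 h9
        linarith
      have c1 : Conn {x : ℝ × ℝ | |x.2| < 1 ∧ r / 252 ≤ d0 x a ∧ d0 x a ≤ 252 * R'}
          (p.1, p.2) (q.1, p.2) := by
        apply conn_h
        intro x hx
        rw [mem_uIcc] at hx
        rcases hx with hx | hx
        · exact hmain (x, p.2) hp (hbp.trans (W_mono hx.1)) ((W_mono hx.2).trans (le_max_right _ _))
        · exact hmain (x, p.2) hp (hbq.trans (W_mono hx.1)) ((W_mono hx.2).trans (le_max_left _ _))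
      have c2 : Conn {x : ℝ × ℝ | |x.2| < 1 ∧ r / 252 ≤ d0 x a ∧ d0 x a ≤ 252 * R'}
          (q.1, p.2) (q.1, q.2) := by
        apply conn_v
        intro x hx
        rw [mem_uIcc] at hx
        rw [abs_lt] at hp hq
        refine hmain (q.1, x) ?_ hbq (le_max_right _ _)
        simp only [abs_lt]
        rcases hx with hx | hx <;> constructor <;> linarith
      exact c1.trans c2
  refine key.mono ?_
  rintro x ⟨h1, h2, h3⟩
  refine ⟨h1, ?_, ?_⟩
  · exact le_min h2 (by linarith)
  · rcases lt_or_ge R L with h | h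
    · have e1 : d0 p a ≤ R := by
        rcases min_choice (d0 p a) L with h' | h'
        · unfold dL at hp2; rw [h'] at hp2; exact hp2
        · unfold dL at hp2; rw [h'] at hp2; linarith
      have e2 : d0 q a ≤ R := by
        rcases min_choice (d0 q a) L with h' | h'
        · unfold dL at hq2; rw [h'] at hq2; exact hq2
        · unfold dL at hq2; rw [h'] at hq2; linarith
      have e3 : R' ≤ R := max_le e1 e2
      exact (min_le_left _ _).trans (by linarith)
    · exact (min_le_right _ _).trans (by linarith)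

end Pool.Agent.K1H24.Pk
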