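import Mathlib
import Pool.Agent.K1H24.PkStrip

set_option autoImplicit false

/-!
The plane with the truncated pocket metric, as a complete metric space.
-/

namespace Pool.Agent.K1H24.Pk

open Set Filter Topology

noncomputable section

/-- the plane with the distance `dL (k + 1)` -/
def Pl (_k : ℕ) : Type := ℝ × ℝ

variable {k : ℕ}

/-- forget the metric -/
def toP (p : Pl k) : ℝ × ℝ := p

/-- put the metric -/
def ofP (p : ℝ × ℝ) : Pl k := p

lemma toP_ofP (p : ℝ × ℝ) : toP (ofP p : Pl k) = p := rfl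
lemma ofP_toP (p : Pl k) : ofP (toP p) = p := rfl

lemma dL_comm (L : ℝ) (p q : ℝ × ℝ) : dL L p q = dL L q p := by unfold dL; rw [d0_comm]

lemma dL_self {L : ℝ} (hL : 0 ≤ L) (p : ℝ × ℝ) : dL L p p = 0 := by
  unfold dL; rw [d0_self, min_eq_left hL]

lemma dL_triangle {L : ℝ} (hL : 0 ≤ L) (p q r : ℝ × ℝ) : dL L p r ≤ dL L p q + dL L q r := by
  unfold dL
  have h1 := d0_triangle p q r
  have h2 := d0_nonneg p q
  have h3 := d0_nonneg q r
  rcases le_total (d0 p q) L with h4 | h4 <;> rcases le_total (d0 q r) L with h5 | h5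
  · rw [min_eq_left h4, min_eq_left h5]; exact (min_le_left _ _).trans h1
  · rw [min_eq_left h4, min_eq_right h5]; exact (min_le_right _ _).trans (by linarith)
  · rw [min_eq_right h4, min_eq_left h5]; exact (min_le_right _ _).trans (by linarith)
  · rw [min_eq_right h4, min_eq_right h5]; exact (min_le_right _ _).trans (by linarith)

lemma lt_of_dL_lt {L δ : ℝ} {p q : ℝ × ℝ} (h : dL L p q < δ) (hδ : δ ≤ L) : d0 p q < δ := by
  unfold dL at h
  rcases min_lt_iff.1 h with h' | h'
  · exact h'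
  · linarith

lemma eq_of_d0 {p q : ℝ × ℝ} (h : d0 p q ≤ 0) : p = q := by
  have h1 := min_le_d0 p q
  have h2 := abs_le_d0 p q
  have h3 : |p.1 - q.1| ≤ 0 := by
    rcases min_le_iff.1 (h1.trans h) with h' | h'
    · exact h'
    · linarith
  have h4 : |p.2 - q.2| ≤ 0 := h2.trans h
  exact Prod.ext (sub_eq_zero.1 (abs_nonpos_iff.1 h3)) (sub_eq_zero.1 (abs_nonpos_iff.1 h4))

instance : MetricSpace (Pl k) where
  dist p q := dL ((k : ℝ) + 1) (toP p) (toP q)
  dist_self p := dL_self (by positivity) _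
  dist_comm p q := dL_comm _ _ _
  dist_triangle p q r := dL_triangle (by positivity) _ _ _
  eq_of_dist_eq_zero := by
    intro p q h
    have h0 : (0 : ℝ) < (k : ℝ) + 1 := by positivity
    have h1 : d0 (toP p) (toP q) ≤ 0 := by
      have h2 : min (d0 (toP p) (toP q)) ((k : ℝ) + 1) = 0 := h
      rcases min_choice (d0 (toP p) (toP q)) ((k : ℝ) + 1) with h' | h'
      · rw [h'] at h2; exact h2.le
      · rw [h'] at h2; linarith
    exact eq_of_d0 h1

lemma dist_def (p q : Pl k) : dist p q = dL ((k : ℝ) + 1) (toP p) (toP q) := rfl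

lemma continuous_ofP : Continuous (ofP : ℝ × ℝ → Pl k) := by
  rw [continuous_iff_continuousAt]
  intro p
  unfold ContinuousAt
  rw [tendsto_iff_dist_tendsto_zero]
  have h1 := (dL_continuous_left ((k : ℝ) + 1) p).tendsto p
  rw [dL_self (by positivity)] at h1
  exact h1

lemma uniformContinuous_toP : UniformContinuous (toP : Pl k → ℝ × ℝ) := by
  rw [Metric.uniformContinuous_iff]
  intro ε hε
  refine ⟨min ε 1, lt_min hε one_pos, fun {a b} h => ?_⟩
  rw [dist_def] at h
  have h0 : (1 : ℝ) ≤ (k : ℝ) + 1 := by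
    have : (0 : ℝ) ≤ k := Nat.cast_nonneg k
    linarith
  have h1 := lt_of_dL_lt h ((min_le_right _ _).trans h0)
  have h2 := (min_le_d0 _ _).trans_lt h1
  have h3 := (abs_le_d0 _ _).trans_lt h1
  have h4 : |(toP a).1 - (toP b).1| < min ε 1 := by
    rcases min_lt_iff.1 h2 with h' | h'
    · exact h'
    · exact absurd h' (not_lt.2 (min_le_right _ _))
  rw [Prod.dist_eq, Real.dist_eq, Real.dist_eq]
  exact max_lt (h4.trans_le (min_le_left _ _)) (h3.trans_le (min_le_left _ _))

/-- the plane with the new metric is homeomorphic to the plane -/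
def homP : Pl k ≃ₜ ℝ × ℝ where
  toFun := toP
  invFun := ofP
  left_inv := ofP_toP
  right_inv := toP_ofP
  continuous_toFun := uniformContinuous_toP.continuous
  continuous_invFun := continuous_ofP

instance : CompleteSpace (Pl k) := by
  apply Metric.complete_of_cauchySeq_tendsto
  intro u hu
  have h2 : CauchySeq (toP ∘ u) := uniformContinuous_toP.comp_cauchySeq hu
  obtain ⟨x, hx⟩ : ∃ x : ℝ × ℝ, Tendsto (toP ∘ u) atTop (𝓝 x) :=
    cauchySeq_tendsto_of_complete h2
  exact ⟨ofP x, (continuous_ofP.tendsto x).comp hx⟩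

/-- the pocket space: the open strip with the new metric -/
def Xk (k : ℕ) : Set (Pl k) := {p | |(toP p).2| < 1}

lemma isOpen_Xk : IsOpen (Xk k) :=
  isOpen_lt (continuous_snd.comp uniformContinuous_toP.continuous).abs continuous_const

lemma closure_Xk : closure (Xk k) = {p | |(toP p).2| ≤ 1} := by
  apply Subset.antisymm
  · apply closure_minimal
    · intro p (hp : |(toP p).2| < 1); exact (le_of_lt hp : |(toP p).2| ≤ 1)
    · exact isClosed_le (continuous_snd.comp uniformContinuous_toP.continuous).abs continuous_const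
  · intro p hp
    -- p is the limit of ofP (s, (1 - 1/(n+1)) t)
    have h1 : Tendsto (fun n : ℕ => (ofP ((toP p).1, (1 - 1 / ((n : ℝ) + 1)) * (toP p).2) : Pl k))
        atTop (𝓝 (ofP ((toP p).1, (1 - 0) * (toP p).2))) := by
      refine (continuous_ofP.tendsto _).comp ?_
      refine tendsto_const_nhds.prodMk_nhds ?_
      exact (tendsto_const_nhds.sub tendsto_one_div_add_atTop_nhds_zero_nat).mul_const _
    have h2 : (ofP ((toP p).1, (1 - 0) * (toP p).2) : Pl k) = p := by
      rw [sub_zero, one_mul]; rfl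
    rw [h2] at h1
    refine mem_closure_of_tendsto h1 (Eventually.of_forall fun n => ?_)
    have h3 : |(toP p).2| ≤ 1 := hp
    change |(1 - 1 / ((n : ℝ) + 1)) * (toP p).2| < 1
    have h4 : (0 : ℝ) < 1 / ((n : ℝ) + 1) := by positivity
    have h5 : 1 / ((n : ℝ) + 1) ≤ 1 := by
      rw [div_le_one (by positivity)]
      have : (0 : ℝ) ≤ n := Nat.cast_nonneg n
      linarith
    rw [abs_mul, abs_of_nonneg (by linarith)]
    have h6 := abs_nonneg (toP p).2
    nlinarith

/-- a homeomorphism from the strip to the plane -/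
theorem exists_hom : Nonempty (Xk k ≃ₜ EuclideanSpace ℝ (Fin 2)) := by
  -- strip in the usual topology
  have e1 : Xk k ≃ₜ {p : ℝ × ℝ | |p.2| < 1} :=
    homP.subtype (fun p => Iff.rfl)
  have e2 : {p : ℝ × ℝ | |p.2| < 1} ≃ₜ ℝ × Metric.ball (0 : ℝ) 1 :=
    { toFun := fun p => (p.1.1, ⟨p.1.2, by
        have h : |(p.1).2| < 1 := p.2
        rw [Metric.mem_ball, Real.dist_eq, sub_zero]; exact h⟩)
      invFun := fun p => ⟨(p.1, p.2.1), by
        have h := p.2.2
        rw [Metric.mem_ball, Real.dist_eq, sub_zero] at h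
        exact h⟩
      left_inv := fun p => rfl
      right_inv := fun p => rfl
      continuous_toFun := by fun_prop
      continuous_invFun := by fun_prop }
  have e3 : Metric.ball (0 : ℝ) 1 ≃ₜ ℝ := Homeomorph.unitBall.symm
  have e4 : ℝ × Metric.ball (0 : ℝ) 1 ≃ₜ ℝ × ℝ := (Homeomorph.refl ℝ).prodCongr e3
  have e5 : ℝ × ℝ ≃ₜ (Fin 2 → ℝ) := Homeomorph.finTwoArrow.symm
  have e6 : (Fin 2 → ℝ) ≃ₜ EuclideanSpace ℝ (Fin 2) := (EuclideanSpace.equiv (Fin 2) ℝ).symm.toHomeomorph
  exact ⟨e1.trans (e2.trans (e4.trans (e5.trans e6)))⟩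

end

end Pool.Agent.K1H24.Pk
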